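import Pool.Agent.R577.FTM.Auto

/-!
# MP_0deb22_lc: the shifts of the Fibonacci-Thue-Morse sequence by Fibonacci numbers

`S c` is the least number of states of a Fibonacci-DFAO generating `(t (i + c))_{i ≥ 0}`, `t` being
the Fibonacci-Thue-Morse sequence. We disprove `S(c) = Θ(c)`: `S(F_k) ≤ C F_k ^ (1 - δ)` for some
`δ > 0`, so `liminf S(c) / c = 0`.

The definitions (`Valid`, `fibVal`, `ftm`, `FibDFAO`, `FibDFAO.Generates`, `S`) are in
`Pool/Agent/R577/FTM/Defs.lean`.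
-/

namespace Pool.Agent.Results.MP_0deb22_lc.ShiftLiminf

open Pool.Agent.R577.FTM Filter Topology Asymptotics

theorem S_mem (c : ℕ) : ∃ M : FibDFAO (S c), M.Generates (fun i => ftm (i + c)) := by
  have h : {n | ∃ M : FibDFAO n, M.Generates (fun i => ftm (i + c))}.Nonempty := by
    obtain ⟨n, hn⟩ := exists_dfao_shift c
    exact ⟨n, hn⟩
  exact Nat.sInf_mem h

theorem S_fib_le {k : ℕ} (hk : 2 ≤ k) : (S (Nat.fib k) : ℝ) ≤ 26000 * (55 / 34) ^ k := by
  obtain ⟨n, hn, hM⟩ := exists_dfao_fib hk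
  have h1 : S (Nat.fib k) ≤ n := Nat.sInf_le hM
  have h2 : (S (Nat.fib k) : ℝ) ≤ n := by exact_mod_cast h1
  have h3 : (16000 : ℝ) * mu ^ (k + 1) ≤ 26000 * (55 / 34) ^ k := by
    unfold mu
    have : (0 : ℝ) ≤ (55 / 34) ^ k := by positivity
    rw [pow_succ]
    linarith
  linarith

theorem phi_pow_le (k : ℕ) : Real.goldenRatio ^ k ≤ (Nat.fib (k + 2) : ℝ) := by
  induction k using Nat.strong_induction_on with
  | _ k ih =>
    match k with
    | 0 => simp
    | 1 =>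
      have := Real.goldenRatio_lt_two
      norm_num [Nat.fib_add_two]
      linarith
    | k + 2 =>
      have h1 := ih k (by omega)
      have h2 := ih (k + 1) (by omega)
      rw [Nat.fib_add_two (n := k + 2), pow_add, Real.goldenRatio_sq]
      rw [pow_succ] at h2
      push_cast
      rw [show k + 1 + 2 = k + 2 + 1 by omega] at h2
      linarith

theorem mu_lt_phi : (55 / 34 : ℝ) < Real.goldenRatio := by
  unfold Real.goldenRatio
  have h : (76 / 34 : ℝ) < √5 := by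
    rw [Real.lt_sqrt (by norm_num)]
    norm_num
  linarith

theorem power_saving : ∃ δ : ℝ, 0 < δ ∧ δ < 1 ∧ ∀ k, 2 ≤ k →
    (S (Nat.fib k) : ℝ) ≤ 70000 * (Nat.fib k : ℝ) ^ (1 - δ) := by
  have hphi1 : 1 < Real.goldenRatio := Real.one_lt_goldenRatio
  have hphi0 : 0 < Real.goldenRatio := Real.goldenRatio_pos
  have hlphi : 0 < Real.log Real.goldenRatio := Real.log_pos hphi1
  have hlmu : 0 < Real.log (55 / 34) := Real.log_pos (by norm_num)
  have hlt : Real.log (55 / 34) < Real.log Real.goldenRatio :=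
    Real.log_lt_log (by norm_num) mu_lt_phi
  set a := Real.log (55 / 34) / Real.log Real.goldenRatio with ha
  have ha0 : 0 < a := div_pos hlmu hlphi
  have ha1 : a < 1 := by rw [ha, div_lt_one hlphi]; exact hlt
  refine ⟨1 - a, by linarith, by linarith, fun k hk => ?_⟩
  rw [sub_sub_cancel]
  obtain ⟨i, rfl⟩ := Nat.exists_eq_add_of_le' hk
  have h1 : (55 / 34 : ℝ) ^ i ≤ (Nat.fib (i + 2) : ℝ) ^ a := by
    have h2 : Real.goldenRatio ^ a = 55 / 34 := by
      rw [Real.rpow_def_of_pos hphi0, ha, mul_div_cancel₀ _ hlphi.ne', Real.exp_log (by norm_num)]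
    calc (55 / 34 : ℝ) ^ i = (Real.goldenRatio ^ a) ^ i := by rw [h2]
      _ = (Real.goldenRatio ^ i) ^ a := by
          rw [← Real.rpow_natCast, ← Real.rpow_mul hphi0.le, mul_comm, Real.rpow_mul hphi0.le,
            Real.rpow_natCast]
      _ ≤ (Nat.fib (i + 2) : ℝ) ^ a :=
          Real.rpow_le_rpow (by positivity) (phi_pow_le i) ha0.le
  have h3 := S_fib_le (k := i + 2) hk
  rw [pow_add] at h3
  have h4 : (0 : ℝ) ≤ (55 / 34) ^ i := by positivity
  nlinarith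

theorem small (κ : ℝ) (hκ : 0 < κ) (N : ℕ) : ∃ c, N ≤ c ∧ 0 < c ∧ (S c : ℝ) < κ * c := by
  obtain ⟨δ, hδ, -, h⟩ := power_saving
  have h1 : Tendsto (fun x : ℝ => 70000 * x ^ (-δ)) atTop (𝓝 (70000 * 0)) :=
    (tendsto_rpow_neg_atTop hδ).const_mul _
  have hfib : Tendsto (fun k : ℕ => Nat.fib (k + 2)) atTop atTop := Nat.fib_add_two_strictMono.tendsto_atTop
  have h2 : Tendsto (fun k : ℕ => ((Nat.fib (k + 2) : ℕ) : ℝ)) atTop atTop :=
    tendsto_natCast_atTop_atTop.comp hfib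
  have h3 := h1.comp h2
  rw [mul_zero] at h3
  have h4 : ∀ᶠ k : ℕ in atTop, 70000 * ((Nat.fib (k + 2) : ℕ) : ℝ) ^ (-δ) < κ :=
    h3.eventually (gt_mem_nhds hκ)
  obtain ⟨k, hk1, hk2⟩ := (h4.and (hfib.eventually (eventually_ge_atTop N))).exists
  have hpos : 0 < Nat.fib (k + 2) := Nat.fib_pos.2 (by omega)
  have hpos' : (0 : ℝ) < (Nat.fib (k + 2) : ℕ) := by exact_mod_cast hpos
  refine ⟨Nat.fib (k + 2), hk2, hpos, (h (k + 2) (by omega)).trans_lt ?_⟩
  rw [show (1 - δ : ℝ) = -δ + 1 by ring, Real.rpow_add hpos', Real.rpow_one, ← mul_assoc]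
  exact mul_lt_mul_of_pos_right hk1 hpos'

/-- **MP_0deb22_lc.** `S(c) = Θ(c)` fails for the shifts of the Fibonacci-Thue-Morse sequence. -/
theorem result :
    -- every shift is generated by a Fibonacci-DFAO, and the minimum `S c` is attained
    (∀ c, ∃ M : FibDFAO (S c), M.Generates (fun i => ftm (i + c))) ∧
    -- explicit bound for the shifts by Fibonacci numbers; note `55 / 34 < φ`
    (∀ k, 2 ≤ k → (S (Nat.fib k) : ℝ) ≤ 26000 * (55 / 34) ^ k) ∧
    -- power saving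
    (∃ δ : ℝ, 0 < δ ∧ δ < 1 ∧ ∀ k, 2 ≤ k →
      (S (Nat.fib k) : ℝ) ≤ 70000 * (Nat.fib k : ℝ) ^ (1 - δ)) ∧
    -- the negated form of the question
    (∀ κ : ℝ, 0 < κ → ∀ c₀ : ℕ, ∃ c, c₀ ≤ c ∧ (S c : ℝ) < κ * c) ∧
    liminf (fun c : ℕ => (S c : ℝ) / c) atTop = 0 ∧
    ¬ (fun c : ℕ => (S c : ℝ)) =Θ[atTop] (fun c : ℕ => (c : ℝ)) := by
  refine ⟨S_mem, fun k hk => S_fib_le hk, power_saving, ?_, ?_, ?_⟩
  · intro κ hκ N
    obtain ⟨c, h1, -, h2⟩ := small κ hκ N
    exact ⟨c, h1, h2⟩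
  · rw [liminf_eq]
    have hub : ∀ a ∈ {a : ℝ | ∀ᶠ n : ℕ in atTop, a ≤ (S n : ℝ) / n}, a ≤ 0 := by
      intro a ha
      by_contra hcon
      push Not at hcon
      obtain ⟨N, hN⟩ := eventually_atTop.1 ha
      obtain ⟨c, h1, h2, h3⟩ := small a hcon N
      have h4 := hN c h1
      have h5 : (0 : ℝ) < c := by exact_mod_cast h2
      rw [le_div_iff₀ h5] at h4
      linarith
    have h0 : (0 : ℝ) ∈ {a : ℝ | ∀ᶠ n : ℕ in atTop, a ≤ (S n : ℝ) / n} :=
      Eventually.of_forall fun n => by positivity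
    exact le_antisymm (csSup_le ⟨0, h0⟩ hub) (le_csSup ⟨0, hub⟩ h0)
  · intro h
    obtain ⟨C, hC⟩ := h.2.bound
    obtain ⟨N, hN⟩ := eventually_atTop.1 hC
    have hC' : (0 : ℝ) < max C 1 := lt_of_lt_of_le one_pos (le_max_right _ _)
    obtain ⟨c, h1, h2, h3⟩ := small (1 / max C 1) (by positivity) N
    have h4 := hN c h1
    rw [Real.norm_natCast, Real.norm_natCast] at h4
    have h5 : C * (S c : ℝ) ≤ max C 1 * S c :=
      mul_le_mul_of_nonneg_right (le_max_left _ _) (by positivity)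
    have h6 : max C 1 * (S c : ℝ) < max C 1 * (1 / max C 1 * c) :=
      mul_lt_mul_of_pos_left h3 hC'
    have h7 : max C 1 * (1 / max C 1 * (c : ℝ)) = c := by
      field_simp
    linarith

end Pool.Agent.Results.MP_0deb22_lc.ShiftLiminf
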