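import Mathlib
import Pool.Agent.R436.FibShift

set_option autoImplicit false

/-!
# State complexity of shifts of the Fibonacci-Thue-Morse sequence

For `c ≥ 0` let `S c` be the least number of states of a Fibonacci-DFAO that generates the shifted
Fibonacci-Thue-Morse sequence `(t (i + c))_i`.  We prove that `S c` is not of order `c`: the lower
limit of `S c / c` is `0`.  (The small values are attained at Fibonacci numbers `c`.)
-/

namespace Pool.Agent.Results.MP_0deb22_lc.ShiftStates

/-- A word over `{0, 1}` (most significant digit first, `true` is the digit `1`) is valid if it has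
no two adjacent ones. -/
def Valid (w : List Bool) : Prop := w.IsChain fun a b => a = false ∨ b = false

/-- The number represented by a word `e_r e_{r-1} … e_2`, namely `∑ e_j F_j`; the leading digit of
`d :: w` has the weight `F_{|w| + 2}`. -/
def value : List Bool → ℕ
  | [] => 0
  | d :: w => (if d then Nat.fib (w.length + 2) else 0) + value w

/-- The Fibonacci-Thue-Morse sequence: the number of ones of the Fibonacci (Zeckendorf)
representation of `i`, modulo `2`.  `Nat.zeckendorf i` is the list of the indices of the ones. -/
def t (i : ℕ) : ℕ := (Nat.zeckendorf i).length % 2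

/-- A Fibonacci-DFAO with `N` states: a partial transition function (`none` means undefined), an
initial state and an output map. -/
structure FibDFAO (N : ℕ) where
  /-- the partial transition function -/
  δ : Fin N → Bool → Option (Fin N)
  /-- the initial state -/
  q₀ : Fin N
  /-- the output map -/
  τ : Fin N → ℕ

/-- The automaton generates the sequence `h`: on every valid word `w` (that is, on every valid
representation of every number, leading zeros being allowed) the run from the initial state is
defined and ends in a state with output `h (value w)`. -/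
def FibDFAO.Generates {N : ℕ} (M : FibDFAO N) (h : ℕ → ℕ) : Prop :=
  ∀ w : List Bool, Valid w → ∃ q, w.foldlM M.δ M.q₀ = some q ∧ M.τ q = h (value w)

/-- The least number of states of a Fibonacci-DFAO generating `(t (i + c))_i`. -/
noncomputable def S (c : ℕ) : ℕ :=
  sInf {N | ∃ M : FibDFAO N, M.Generates fun i => t (i + c)}

lemma value_eq (w : List Bool) : value w = Pool.Agent.R436.FibShift.value w := by
  induction w with
  | nil => rfl
  | cons d w ih => rw [value, Pool.Agent.R436.FibShift.value, ih]

/-- **`S c` is not of order `c`.**  For all `κ > 0` and `c₀` there is `c ≥ c₀` with `S c < κ c`;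
here `S c` is the number of states of an actual automaton generating the shifted sequence. -/
theorem result (κ : ℝ) (hκ : 0 < κ) (c₀ : ℕ) : ∃ c ≥ c₀, (S c : ℝ) < κ * c ∧
    ∃ M : FibDFAO (S c), M.Generates fun i => t (i + c) := by
  obtain ⟨c, hc, N, hN, δ, q₀, τ, h⟩ := Pool.Agent.R436.FibShift.exists_small κ hκ c₀
  have hmem : N ∈ {N | ∃ M : FibDFAO N, M.Generates fun i => t (i + c)} := by
    refine ⟨⟨δ, q₀, τ⟩, fun w hw => ?_⟩
    rw [value_eq]
    exact h w hw
  refine ⟨c, hc, ?_, Nat.sInf_mem ⟨N, hmem⟩⟩
  have h1 : S c ≤ N := Nat.sInf_le hmem
  have h2 : (S c : ℝ) ≤ N := by exact_mod_cast h1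
  linarith

end Pool.Agent.Results.MP_0deb22_lc.ShiftStates
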